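import Pool.Agent.Work.MP_4b551e_an.Stmts35

/-!
# D1: the hole functional by the distance function
-/

open MeasureTheory Set Metric
open scoped ENNReal NNReal Pointwise RealInnerProductSpace

namespace Pool.Agent.Robin

namespace D1

variable (v : Profile) (k : ℝ)

theorem w_max (s : ℝ) : v.w s = v.w (max s 0) := by
  rcases le_total s 0 with h | h
  · rw [max_eq_right h, v.neg s h]
  · rw [max_eq_left h]

theorem dw_bdd : ∃ C : ℝ≥0, ∀ s, 0 ≤ s → |v.dw s| ≤ C := by
  have h1 : ContinuousOn v.dw (Icc 0 v.σ) := v.dw_cont.mono fun s hs => hs.1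
  obtain ⟨C, hC⟩ := (isCompact_Icc.image_of_continuousOn h1.abs).bddAbove
  refine ⟨⟨max C 0, le_max_right _ _⟩, fun s hs => ?_⟩
  rcases le_total s v.σ with h | h
  · exact (hC ⟨s, ⟨hs, h⟩, rfl⟩).trans (le_max_left _ _)
  · rw [v.dw_zero s h, abs_zero]
    exact le_max_right _ _

theorem w_lip : ∃ C : ℝ≥0, LipschitzWith C v.w := by
  obtain ⟨C, hC⟩ := dw_bdd v
  refine ⟨C, ?_⟩
  have key : ∀ a b : ℝ, 0 ≤ a → a < b → |v.w b - v.w a| ≤ C * (b - a) := by
    intro a b ha hab
    obtain ⟨c, hc, hc'⟩ := exists_hasDerivAt_eq_slope v.w v.dw hab v.w_cont.continuousOn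
      (fun x hx => v.deriv x (ha.trans_lt hx.1))
    have h1 : v.w b - v.w a = v.dw c * (b - a) := by
      rw [hc']; field_simp [sub_ne_zero.mpr hab.ne']
    rw [h1, abs_mul, abs_of_pos (sub_pos.mpr hab)]
    exact mul_le_mul_of_nonneg_right (hC c (ha.trans hc.1.le)) (sub_pos.mpr hab).le
  refine LipschitzWith.of_dist_le_mul fun x y => ?_
  rw [w_max v x, w_max v y, Real.dist_eq]
  have h2 : |max x 0 - max y 0| ≤ dist x y := by
    rw [Real.dist_eq]
    exact abs_max_sub_max_le_abs x y 0
  refine le_trans ?_ (mul_le_mul_of_nonneg_left h2 C.2)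
  rcases lt_trichotomy (max x 0) (max y 0) with h | h | h
  · have := key _ _ (le_max_right x 0) h
    rw [abs_sub_comm] at this
    rw [abs_sub_comm (max x 0), abs_of_pos (sub_pos.mpr h)]
    exact this
  · rw [h]; simp
  · have := key _ _ (le_max_right y 0) h
    rw [abs_of_pos (sub_pos.mpr h)]
    exact this

/-- the density extended by a constant -/
noncomputable def G (s : ℝ) : ℝ := v.g k (max s 0)

theorem G_cont : Continuous (G v k) := by
  unfold G Profile.g
  have h1 : Continuous fun s : ℝ => v.dw (max s 0) :=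
    v.dw_cont.comp_continuous (by fun_prop) fun s => mem_Ici.mpr (le_max_right _ _)
  have h2 : Continuous fun s : ℝ => v.w (max s 0) := v.w_cont.comp (by fun_prop)
  fun_prop

theorem G_nonneg (s : ℝ) : 0 ≤ G v k s := by
  unfold G Profile.g
  have := v.one_le (max s 0)
  have h1 : 0 ≤ (v.w (max s 0)) ^ 2 - 1 := by nlinarith
  positivity

theorem G_eq {s : ℝ} (hs : 0 ≤ s) : G v k s = v.g k s := by
  unfold G; rw [max_eq_left hs]

theorem G_zero {s : ℝ} (hs : v.σ ≤ s) : G v k s = 0 := by
  rw [G_eq v k (v.σ_pos.le.trans hs)]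
  unfold Profile.g
  rw [v.dw_zero s hs, v.eq_one s hs]
  simp

theorem lint_Ioo (P t : ℝ) (hP : 0 ≤ P) (ht : 0 ≤ t) :
    ∫⁻ s in Ioo 0 t, ENNReal.ofReal (P + 2 * Real.pi * s) =
      ENNReal.ofReal (t * P + Real.pi * t ^ 2) := by
  have h1 : ∫⁻ s in Ioo 0 t, ENNReal.ofReal (P + 2 * Real.pi * s) =
      ENNReal.ofReal (∫ s in Ioo 0 t, (P + 2 * Real.pi * s)) := by
    rw [ofReal_integral_eq_lintegral_ofReal]
    · exact ((by fun_prop : Continuous fun s : ℝ => P + 2 * Real.pi * s).integrableOn_Icc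
        (a := 0) (b := t)).mono_set Ioo_subset_Icc_self
    · refine (ae_restrict_iff' measurableSet_Ioo).mpr (Filter.Eventually.of_forall fun s hs => ?_)
      have := Real.pi_pos
      have := hs.1
      show 0 ≤ P + 2 * Real.pi * s
      positivity
  rw [h1, ← integral_Ioc_eq_integral_Ioo, ← intervalIntegral.integral_of_le ht]
  congr 1
  rw [intervalIntegral.integral_add (by simp) (by
    exact (by fun_prop : Continuous fun s : ℝ => 2 * Real.pi * s).intervalIntegrable _ _)]
  rw [intervalIntegral.integral_const, intervalIntegral.integral_const_mul, integral_id]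
  simp only [smul_eq_mul]
  ring

theorem layer {K : Set E2} (hK : IsCompact K) (hne : K.Nonempty) {P : ℝ} (hP : 0 ≤ P)
    (hst : ∀ s, 0 ≤ s →
      volume (cthickening s K) ≤ volume K + ENNReal.ofReal (s * P + Real.pi * s ^ 2))
    (hanti : AntitoneOn (v.g k) (Ici 0)) :
    ∫⁻ x in Kᶜ, ENNReal.ofReal (G v k (infDist x K)) ≤
      ∫⁻ s in Ioc 0 v.σ, ENNReal.ofReal (P + 2 * Real.pi * s) * ENNReal.ofReal (G v k s) := by
  have hm1 : Measurable fun s : ℝ => ENNReal.ofReal (P + 2 * Real.pi * s) :=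
    (by fun_prop : Continuous fun s : ℝ => P + 2 * Real.pi * s).measurable.ennreal_ofReal
  have hm2 : Measurable fun s : ℝ => ENNReal.ofReal (G v k s) :=
    (G_cont v k).measurable.ennreal_ofReal
  have h1 := lintegral_withDensity_eq_lintegral_mul (volume.restrict (Ioc 0 v.σ)) hm1 hm2
  have h2 : ∫⁻ s in Ioc 0 v.σ, ENNReal.ofReal (P + 2 * Real.pi * s) * ENNReal.ofReal (G v k s) =
      ∫⁻ s, ENNReal.ofReal (G v k s) ∂((volume.restrict (Ioc 0 v.σ)).withDensity
        fun s => ENNReal.ofReal (P + 2 * Real.pi * s)) := by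
    rw [h1]; rfl
  have hcont : Continuous fun x : E2 => G v k (infDist x K) :=
    (G_cont v k).comp (continuous_infDist_pt K)
  rw [h2, lintegral_eq_lintegral_meas_lt _
      (Filter.Eventually.of_forall fun x => G_nonneg v k _) hcont.aemeasurable,
    lintegral_eq_lintegral_meas_lt _
      (Filter.Eventually.of_forall fun x => G_nonneg v k _) (G_cont v k).aemeasurable]
  refine setLIntegral_mono' measurableSet_Ioi fun t ht => ?_
  have ht0 : (0 : ℝ) < t := ht
  have hmeas : MeasurableSet {x : E2 | t < G v k (infDist x K)} :=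
    (isOpen_lt continuous_const hcont).measurableSet
  rw [Measure.restrict_apply hmeas]
  obtain ⟨A, hA⟩ : ∃ A : Set ℝ, A = {s | 0 ≤ s ∧ t < G v k s} := ⟨_, rfl⟩
  have hbdd : ∀ s ∈ A, s < v.σ := by
    intro s hs
    rw [hA] at hs
    by_contra hcon
    have := hs.2
    rw [G_zero v k (not_lt.mp hcon)] at this
    exact absurd this (not_lt.mpr ht0.le)
  by_cases hAe : A.Nonempty
  · have hbA : BddAbove A := ⟨v.σ, fun s hs => (hbdd s hs).le⟩
    have hs0 : 0 ≤ sSup A := by
      obtain ⟨s, hs⟩ := hAe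
      have h3 := le_csSup hbA hs
      rw [hA] at hs
      exact hs.1.trans h3
    have hsσ : sSup A ≤ v.σ := csSup_le hAe fun s hs => (hbdd s hs).le
    have hL : volume ({x : E2 | t < G v k (infDist x K)} ∩ Kᶜ) ≤
        ENNReal.ofReal (sSup A * P + Real.pi * (sSup A) ^ 2) := by
      have h3 : ({x : E2 | t < G v k (infDist x K)} ∩ Kᶜ) ⊆ cthickening (sSup A) K \ K := by
        rintro x ⟨hx, hxK⟩
        refine ⟨?_, hxK⟩
        have h4 : infDist x K ∈ A := by
          rw [hA]; exact ⟨infDist_nonneg, hx⟩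
        have h5 := le_csSup hbA h4
        rw [mem_cthickening_iff, ENNReal.le_ofReal_iff_toReal_le (infEDist_ne_top hne) hs0]
        exact h5
      refine (measure_mono h3).trans ?_
      rw [measure_sdiff (self_subset_cthickening K) hK.measurableSet.nullMeasurableSet
        hK.measure_lt_top.ne, tsub_le_iff_left]
      exact hst _ hs0
    refine hL.trans ?_
    rw [← lint_Ioo P (sSup A) hP hs0]
    have h6 : Ioo 0 (sSup A) ⊆ {s | t < G v k s} := by
      rintro s ⟨hs1, hs2⟩
      obtain ⟨s', hs', hss⟩ := exists_lt_of_lt_csSup hAe hs2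
      rw [hA] at hs'
      have h7 := hanti (mem_Ici.mpr hs1.le) (mem_Ici.mpr hs'.1) hss.le
      rw [← G_eq v k hs1.le, ← G_eq v k hs'.1] at h7
      exact hs'.2.trans_le h7
    refine le_trans (le_of_eq ?_) (measure_mono h6)
    rw [withDensity_apply _ measurableSet_Ioo, Measure.restrict_restrict measurableSet_Ioo,
      inter_eq_self_of_subset_left]
    exact fun s hs => ⟨hs.1, hs.2.le.trans hsσ⟩
  · have h3 : ({x : E2 | t < G v k (infDist x K)} ∩ Kᶜ) = ∅ := by
      rw [eq_empty_iff_forall_notMem]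
      rintro x ⟨hx, -⟩
      exact hAe ⟨infDist x K, by rw [hA]; exact ⟨infDist_nonneg, hx⟩⟩
    rw [h3, measure_empty]
    exact bot_le

theorem norm_fderiv_le {K : Set E2} (hK : IsClosed K) (hne : K.Nonempty) {x : E2}
    (hx : x ∉ K) (hd : DifferentiableAt ℝ (fun y => infDist y K) x) :
    ‖fderiv ℝ (fun y => v.w (infDist y K)) x‖ ≤ |v.dw (infDist x K)| := by
  have hpos : 0 < infDist x K := (hK.notMem_iff_infDist_pos hne).mp hx
  have h1 := (v.deriv _ hpos).comp_hasFDerivAt x hd.hasFDerivAt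
  have h2 : fderiv ℝ (fun y => v.w (infDist y K)) x =
      v.dw (infDist x K) • fderiv ℝ (fun y => infDist y K) x := h1.fderiv
  rw [h2, norm_smul, Real.norm_eq_abs]
  have h3 : ‖fderiv ℝ (fun y => infDist y K) x‖ ≤ 1 := by
    have := norm_fderiv_le_of_lipschitz (𝕜 := ℝ) (x₀ := x) (lipschitz_infDist_pt K)
    simpa using this
  calc |v.dw (infDist x K)| * ‖fderiv ℝ (fun y => infDist y K) x‖
      ≤ |v.dw (infDist x K)| * 1 := mul_le_mul_of_nonneg_left h3 (abs_nonneg _)
    _ = _ := mul_one _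

theorem energy_le {K : Set E2} (hK : IsCompact K) (hne : K.Nonempty) :
    ∫ x in Kᶜ, (en k (fun y => v.w (infDist y K)) x - k ^ 2) ≤
      ∫ x in Kᶜ, G v k (infDist x K) := by
  have hcont : Continuous fun x : E2 => G v k (infDist x K) :=
    (G_cont v k).comp (continuous_infDist_pt K)
  have hcs : HasCompactSupport fun x : E2 => G v k (infDist x K) := by
    refine HasCompactSupport.intro (hK.cthickening (r := v.σ)) fun x hx => ?_
    rw [mem_cthickening_iff, ENNReal.le_ofReal_iff_toReal_le (infEDist_ne_top hne)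
      v.σ_pos.le] at hx
    exact G_zero v k (not_le.mp hx).le
  refine integral_mono_of_nonneg ?_ (hcont.integrable_of_hasCompactSupport hcs).integrableOn ?_
  · refine Filter.Eventually.of_forall fun x => ?_
    unfold en
    have h1 := v.one_le (infDist x K)
    have h2 : 0 ≤ k ^ 2 * ((v.w (infDist x K)) ^ 2 - 1) := mul_nonneg (sq_nonneg _) (by nlinarith)
    have h3 := sq_nonneg ‖fderiv ℝ (fun y => v.w (infDist y K)) x‖
    show 0 ≤ ‖fderiv ℝ (fun y => v.w (infDist y K)) x‖ ^ 2 + k ^ 2 * (v.w (infDist x K)) ^ 2 - k ^ 2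
    linarith
  · rw [Filter.EventuallyLE, ae_restrict_iff' hK.measurableSet.compl]
    filter_upwards [(lipschitz_infDist_pt K).ae_differentiableAt (μ := volume)] with x hx hxK
    rw [G_eq v k infDist_nonneg]
    unfold en Profile.g
    have h1 := norm_fderiv_le v hK.isClosed hne hxK hx
    have h2 := pow_le_pow_left₀ (norm_nonneg _) h1 2
    rw [sq_abs] at h2
    linarith

end D1

theorem prf_D1 (_h2 : S_B2) (h12 : S_C12) : S_D1 := by
  intro k K v hk hK hc hL hanti ε hε
  obtain ⟨C, hC⟩ := D1.w_lip v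
  have hne : K.Nonempty := hc.nonempty
  refine ⟨fun x => v.w (infDist x K), ⟨C * 1, hC.comp (lipschitz_infDist_pt K)⟩,
    fun x => v.one_le _, ?_, ?_⟩
  · obtain ⟨R0, hR0⟩ := hK.isBounded.subset_closedBall 0
    refine ⟨R0 + v.σ, fun x hx => v.eq_one _ ?_⟩
    rw [le_infDist hne]
    intro y hy
    have h1 := hR0 hy
    rw [mem_closedBall, dist_zero_right] at h1
    have h2 : ‖x‖ ≤ dist x y + ‖y‖ := by
      rw [dist_eq_norm]
      calc ‖x‖ = ‖(x - y) + y‖ := by rw [sub_add_cancel]
        _ ≤ _ := norm_add_le _ _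
    linarith
  have hP : 0 ≤ per K := ENNReal.toReal_nonneg
  have hst : ∀ s, 0 ≤ s →
      volume (cthickening s K) ≤ volume K + ENNReal.ofReal (s * per K + Real.pi * s ^ 2) :=
    fun s hs => h12 K s hK hc hL hs
  have hlay := D1.layer v k hK hne hP hst hanti
  have hE := D1.energy_le v k hK hne
  have hcont : Continuous fun x : E2 => D1.G v k (infDist x K) :=
    (D1.G_cont v k).comp (continuous_infDist_pt K)
  -- the right hand side as a real integral
  have hJc : Continuous fun s : ℝ => (per K + 2 * Real.pi * s) * D1.G v k s :=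
    (by fun_prop : Continuous fun s : ℝ => per K + 2 * Real.pi * s).mul (D1.G_cont v k)
  have hJn : ∀ s ∈ Ioc 0 v.σ, 0 ≤ (per K + 2 * Real.pi * s) * D1.G v k s := by
    intro s hs
    have := Real.pi_pos
    have := hs.1
    have := D1.G_nonneg v k s
    positivity
  have hJ : ∫⁻ s in Ioc 0 v.σ, ENNReal.ofReal (per K + 2 * Real.pi * s) *
      ENNReal.ofReal (D1.G v k s) =
      ENNReal.ofReal (∫ s in Ioc 0 v.σ, (per K + 2 * Real.pi * s) * D1.G v k s) := by
    rw [ofReal_integral_eq_lintegral_ofReal (hJc.integrableOn_Icc.mono_set Ioc_subset_Icc_self)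
      ((ae_restrict_iff' measurableSet_Ioc).mpr (Filter.Eventually.of_forall hJn))]
    refine setLIntegral_congr_fun measurableSet_Ioc fun s hs => ?_
    rw [ENNReal.ofReal_mul]
    have := Real.pi_pos
    have := hs.1
    positivity
  have hI : ENNReal.ofReal (∫ x in Kᶜ, D1.G v k (infDist x K)) ≤
      ∫⁻ x in Kᶜ, ENNReal.ofReal (D1.G v k (infDist x K)) := by
    rw [integral_eq_lintegral_of_nonneg_ae
      (Filter.Eventually.of_forall fun x => D1.G_nonneg v k _) hcont.aestronglyMeasurable]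
    exact ENNReal.ofReal_toReal_le
  have hIJ : (∫ x in Kᶜ, D1.G v k (infDist x K)) ≤
      ∫ s in Ioc 0 v.σ, (per K + 2 * Real.pi * s) * D1.G v k s := by
    have h1 := hI.trans hlay
    rw [hJ] at h1
    exact (ENNReal.ofReal_le_ofReal_iff (setIntegral_nonneg measurableSet_Ioc hJn)).mp h1
  have hJ2 : ∫ s in Ioc 0 v.σ, (per K + 2 * Real.pi * s) * D1.G v k s =
      per K * (∫ s in (0 : ℝ)..v.σ, v.g k s) + 2 * Real.pi * v.m k := by
    have h1 : ∫ s in Ioc 0 v.σ, (per K + 2 * Real.pi * s) * D1.G v k s =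
        ∫ s in Ioc 0 v.σ, (per K * D1.G v k s + 2 * Real.pi * (D1.G v k s * s)) :=
      setIntegral_congr_fun measurableSet_Ioc fun s _ => by ring
    have i1 : IntegrableOn (D1.G v k) (Ioc 0 v.σ) :=
      (D1.G_cont v k).integrableOn_Icc.mono_set Ioc_subset_Icc_self
    have i2 : IntegrableOn (fun s => D1.G v k s * s) (Ioc 0 v.σ) :=
      ((D1.G_cont v k).mul continuous_id).integrableOn_Icc.mono_set Ioc_subset_Icc_self
    rw [h1, integral_add (i1.const_mul _) (i2.const_mul _), integral_const_mul,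
      integral_const_mul]
    unfold Profile.m
    rw [intervalIntegral.integral_of_le v.σ_pos.le, intervalIntegral.integral_of_le v.σ_pos.le]
    congr 2
    · exact setIntegral_congr_fun measurableSet_Ioc fun s hs => D1.G_eq v k hs.1.le
    · exact setIntegral_congr_fun measurableSet_Ioc fun s hs => by
        simp only [D1.G_eq v k hs.1.le]
  have hB : ∫ x in frontier K, (v.w (infDist x K)) ^ 2 ∂(μH[1]) = (v.w 0) ^ 2 * per K := by
    have h1 : ∫ x in frontier K, (v.w (infDist x K)) ^ 2 ∂(μH[1]) =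
        ∫ x in frontier K, (v.w 0) ^ 2 ∂(μH[1]) := by
      refine setIntegral_congr_fun isClosed_frontier.measurableSet fun x hx => ?_
      have h2 : x ∈ K := hK.isClosed.frontier_subset hx
      simp only [infDist_zero_of_mem h2]
    rw [h1, setIntegral_const, smul_eq_mul, mul_comm]
    rfl
  have hfin : (∫ x in Kᶜ, (en k (fun y => v.w (infDist y K)) x - k ^ 2)) -
      (∫ x in frontier K, (v.w (infDist x K)) ^ 2 ∂(μH[1])) ≤
      -(per K) * v.q k + 2 * Real.pi * v.m k := by
    rw [hB]
    unfold Profile.q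
    have := hE.trans (hIJ.trans hJ2.le)
    linarith
  exact hfin.trans (by linarith)

end Pool.Agent.Robin
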