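import Pool.Agent.Work.MP_4b551e_an.Stmts35

/-!
# MP_4b551e_an, item Eil: Eilenberg inequality
-/

set_option autoImplicit false

open MeasureTheory Set Metric Filter
open scoped ENNReal NNReal Topology

namespace Pool.Agent.Robin

namespace EilP

/-- dyadic square of level `n` containing the point -/
noncomputable def q (n : ℕ) (x : E2) : Fin 2 → ℤ := fun k => ⌊(2 : ℝ) ^ n * x k⌋

theorem measurable_q (n : ℕ) : Measurable (q n) := by
  refine measurable_pi_iff.2 fun k => ?_
  refine Int.measurable_floor.comp ?_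
  have : Measurable fun x : E2 => x k := by fun_prop
  exact this.const_mul _

theorem q_sep {x y : E2} (h : x ≠ y) : ∀ᶠ n : ℕ in atTop, q n x ≠ q n y := by
  obtain ⟨k, hk⟩ : ∃ k, x k ≠ y k := by
    by_contra hcon
    push Not at hcon
    exact h (by ext k; exact hcon k)
  have hpos : 0 < |x k - y k| := abs_pos.2 (sub_ne_zero.2 hk)
  have hlim : Tendsto (fun n : ℕ => (2 : ℝ) ^ n * |x k - y k|) atTop atTop :=
    (tendsto_pow_atTop_atTop_of_one_lt (by norm_num)).atTop_mul_const hpos
  filter_upwards [hlim.eventually_ge_atTop 1] with n hn heq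
  have h1 : ⌊(2 : ℝ) ^ n * x k⌋ = ⌊(2 : ℝ) ^ n * y k⌋ := congrFun heq k
  have h2 := Int.abs_sub_lt_one_of_floor_eq_floor h1
  rw [← mul_sub, abs_mul, abs_of_pos (by positivity : (0 : ℝ) < 2 ^ n)] at h2
  linarith

/-- cell of level `n` -/
def D (n : ℕ) (i : Fin 2 → ℤ) : Set E2 := {x | q n x = i}

theorem measurableSet_D (n : ℕ) (i : Fin 2 → ℤ) : MeasurableSet (D n i) :=
  measurable_q n (measurableSet_singleton i)

theorem measure_sum (A : Set E2) (hA : MeasurableSet A) (n : ℕ) :
    ∑' i, μH[1] (A ∩ D n i) = μH[1] A := by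
  rw [← measure_iUnion]
  · congr 1
    ext x
    simp only [mem_iUnion, mem_inter_iff]
    exact ⟨fun ⟨_, h, _⟩ => h, fun h => ⟨q n x, h, rfl⟩⟩
  · intro i j hij
    refine Set.disjoint_left.2 ?_
    rintro x ⟨_, h1⟩ ⟨_, h2⟩
    exact hij (h1.symm.trans h2)
  · exact fun i => hA.inter (measurableSet_D n i)

/-- the property for a function `f` -/
def P (S : Set E2) (φ : E2 → ℝ) (f : E2 → ℝ≥0∞) : Prop :=
  ∃ G : ℝ → ℝ≥0∞, Measurable G ∧ (∀ c, ∑' x : (S ∩ φ ⁻¹' {c} : Set E2), f x ≤ G c) ∧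
    ∫⁻ c : ℝ, G c ≤ ∫⁻ x in S, f x ∂(μH[1])

variable {S : Set E2} {φ : E2 → ℝ}

theorem P_indicator (hS : MeasurableSet S) (hφ : LipschitzWith 1 φ) {B : Set E2}
    (hB : MeasurableSet B) : P S φ (B.indicator 1) := by
  have hA : MeasurableSet (S ∩ B) := hS.inter hB
  let T : ℕ → (Fin 2 → ℤ) → Set ℝ := fun n i => toMeasurable volume (φ '' ((S ∩ B) ∩ D n i))
  let F : ℕ → ℝ → ℝ≥0∞ := fun n c => ∑' i, (T n i).indicator 1 c
  have hT : ∀ n i, MeasurableSet (T n i) := fun n i => measurableSet_toMeasurable _ _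
  have hFm : ∀ n, Measurable (F n) := fun n =>
    Measurable.tsum fun i => measurable_one.indicator (hT n i)
  have hle : ∀ n i, volume (T n i) ≤ μH[1] ((S ∩ B) ∩ D n i) := by
    intro n i
    rw [measure_toMeasurable, ← hausdorffMeasure_real]
    have := hφ.hausdorffMeasure_image_le (d := 1) (by norm_num) ((S ∩ B) ∩ D n i)
    simpa using this
  have hint : ∀ n, ∫⁻ c, F n c ≤ μH[1] (S ∩ B) := by
    intro n
    calc ∫⁻ c, F n c = ∑' i, ∫⁻ c, (T n i).indicator 1 c :=
          lintegral_tsum fun i => (measurable_one.indicator (hT n i)).aemeasurable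
      _ = ∑' i, volume (T n i) := by
          congr 1
          funext i
          exact lintegral_indicator_one (hT n i)
      _ ≤ ∑' i, μH[1] ((S ∩ B) ∩ D n i) := ENNReal.tsum_le_tsum (hle n)
      _ = μH[1] (S ∩ B) := measure_sum _ hA n
  refine ⟨fun c => liminf (fun n => F n c) atTop, Measurable.liminf hFm, ?_, ?_⟩
  · intro c
    rw [ENNReal.tsum_eq_iSup_sum]
    refine iSup_le fun s => ?_
    classical
    let t : Finset E2 :=
      (s.filter (fun x : (S ∩ φ ⁻¹' {c} : Set E2) => (x : E2) ∈ B)).image Subtype.val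
    have hcard : ∑ a ∈ s, (B.indicator 1 (a : E2) : ℝ≥0∞) = (t.card : ℝ≥0∞) := by
      have h1 : t.card = (s.filter (fun x : (S ∩ φ ⁻¹' {c} : Set E2) => (x : E2) ∈ B)).card :=
        Finset.card_image_of_injective _ Subtype.val_injective
      rw [h1, Finset.card_filter]
      push_cast
      refine Finset.sum_congr rfl fun a _ => ?_
      by_cases h : (a : E2) ∈ B
      · simp [h]
      · simp [h]
    rw [hcard]
    have hev : ∀ᶠ n : ℕ in atTop, ∀ x ∈ t, ∀ y ∈ t, x ≠ y → q n x ≠ q n y := by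
      have h1 : ∀ x ∈ t, ∀ᶠ n : ℕ in atTop, ∀ y ∈ t, x ≠ y → q n x ≠ q n y := by
        intro x _
        have h2 : ∀ y ∈ t, ∀ᶠ n : ℕ in atTop, x ≠ y → q n x ≠ q n y := by
          intro y _
          by_cases hxy : x = y
          · exact Eventually.of_forall fun n h => absurd hxy h
          · filter_upwards [q_sep hxy] with n hn _
            exact hn
        exact (Filter.eventually_all_finset t).2 h2
      exact (Filter.eventually_all_finset t).2 h1
    refine le_liminf_of_le (by isBoundedDefault) ?_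
    filter_upwards [hev] with n hn
    have h1 : (t.image (q n)).card = t.card := by
      refine Finset.card_image_of_injOn ?_
      intro x hx y hy hxy
      by_contra h
      exact hn x hx y hy h hxy
    have h2 : ∑ i ∈ t.image (q n), ((T n i).indicator 1 c : ℝ≥0∞) = (t.card : ℝ≥0∞) := by
      rw [← h1, Finset.card_eq_sum_ones]
      push_cast
      refine Finset.sum_congr rfl fun i hi => ?_
      obtain ⟨x, hx, rfl⟩ := Finset.mem_image.1 hi
      have hmem : c ∈ T n (q n x) := by
        refine subset_toMeasurable _ _ ?_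
        obtain ⟨z, hz, rfl⟩ := Finset.mem_image.1 hx
        have hz2 := (Finset.mem_filter.1 hz).2
        refine ⟨z, ⟨⟨z.2.1, hz2⟩, rfl⟩, z.2.2⟩
      simp [hmem]
    rw [← h2]
    exact ENNReal.sum_le_tsum _
  · refine (lintegral_liminf_le hFm).trans ?_
    have h1 : ∫⁻ x in S, B.indicator 1 x ∂(μH[1] : Measure E2) = μH[1] (S ∩ B) := by
      rw [lintegral_indicator_one hB, Measure.restrict_apply hB, inter_comm]
    rw [h1]
    calc liminf (fun n => ∫⁻ c, F n c) atTop ≤ liminf (fun _ : ℕ => μH[1] (S ∩ B)) atTop :=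
          liminf_le_liminf (Eventually.of_forall hint)
      _ = μH[1] (S ∩ B) := liminf_const _

theorem P_mul (hf : E2 → ℝ≥0∞) (hm : Measurable hf) (c : ℝ≥0∞) (h : P S φ hf) :
    P S φ (fun x => c * hf x) := by
  obtain ⟨G, hG, h1, h2⟩ := h
  refine ⟨fun t => c * G t, hG.const_mul c, fun t => ?_, ?_⟩
  · rw [ENNReal.tsum_mul_left]
    exact mul_le_mul_right (h1 t) c
  · rw [lintegral_const_mul c hG, lintegral_const_mul c hm]
    exact mul_le_mul_right h2 c

theorem P_add {f g : E2 → ℝ≥0∞} (hf : Measurable f) (h1 : P S φ f) (h2 : P S φ g) :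
    P S φ (fun x => f x + g x) := by
  obtain ⟨F, hF, a1, a2⟩ := h1
  obtain ⟨G, hG, b1, b2⟩ := h2
  refine ⟨fun t => F t + G t, hF.add hG, fun t => ?_, ?_⟩
  · rw [ENNReal.tsum_add]
    exact add_le_add (a1 t) (b1 t)
  · rw [lintegral_add_left hF, lintegral_add_left hf]
    exact add_le_add a2 b2

theorem P_tsum {f : ℕ → E2 → ℝ≥0∞} (hf : ∀ n, Measurable (f n)) (h : ∀ n, P S φ (f n)) :
    P S φ (fun x => ∑' n, f n x) := by
  choose G hG h1 h2 using h
  refine ⟨fun t => ∑' n, G n t, Measurable.tsum hG, fun t => ?_, ?_⟩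
  · rw [ENNReal.tsum_comm]
    exact ENNReal.tsum_le_tsum fun n => h1 n t
  · rw [lintegral_tsum fun n => (hG n).aemeasurable, lintegral_tsum fun n => (hf n).aemeasurable]
    exact ENNReal.tsum_le_tsum h2

theorem P_simple (hS : MeasurableSet S) (hφ : LipschitzWith 1 φ) (f : SimpleFunc E2 ℝ≥0) :
    P S φ (fun x => (f x : ℝ≥0∞)) := by
  induction f using SimpleFunc.induction with
  | const c hs =>
    rename_i s
    have h1 := P_mul (S := S) (φ := φ) (s.indicator 1) (measurable_one.indicator hs) c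
      (P_indicator hS hφ hs)
    have h2 : (fun x => ((SimpleFunc.piecewise s hs (SimpleFunc.const E2 c)
        (SimpleFunc.const E2 0) x : ℝ≥0) : ℝ≥0∞)) = fun x => (c : ℝ≥0∞) * s.indicator 1 x := by
      funext x
      by_cases hx : x ∈ s
      · simp [hx]
      · simp [hx]
    rw [h2]
    exact h1
  | add hfg hf hg =>
    rename_i f g
    have h1 := P_add (f.measurable.coe_nnreal_ennreal) hf hg
    have h2 : (fun x => (((f + g) x : ℝ≥0) : ℝ≥0∞)) = fun x => (f x : ℝ≥0∞) + (g x : ℝ≥0∞) := by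
      funext x
      simp
    rw [h2]
    exact h1

end EilP

theorem prf_Eil : S_Eil := by
  intro S φ f hS hφ hf
  have h1 : EilP.P S φ (fun x => ∑' n, ((SimpleFunc.eapproxDiff f n x : ℝ≥0) : ℝ≥0∞)) :=
    EilP.P_tsum (fun n => (SimpleFunc.eapproxDiff f n).measurable.coe_nnreal_ennreal)
      (fun n => EilP.P_simple hS hφ _)
  have h2 : (fun x => ∑' n, ((SimpleFunc.eapproxDiff f n x : ℝ≥0) : ℝ≥0∞)) = f := by
    funext x
    exact SimpleFunc.tsum_eapproxDiff f hf x
  rw [h2] at h1
  exact h1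

end Pool.Agent.Robin
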