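import Pool.Agent.Work.MP_4b551e_an.Stmts35

namespace Pool.Agent.Robin

open MeasureTheory Set Metric Filter Topology
open scoped ENNReal NNReal Pointwise RealInnerProductSpace

namespace BanAux

/-- the dyadic piece -/
def D (n : ℕ) (i : ℤ) : Set ℝ := {t | ⌊t * 2 ^ n⌋ = i}

theorem meas_D (n : ℕ) (i : ℤ) : MeasurableSet (D n i) := by
  have h : Measurable (fun t : ℝ => ⌊t * 2 ^ n⌋) :=
    Int.measurable_floor.comp (measurable_id.mul_const _)
  exact h (measurableSet_singleton i)

theorem separate (s : Finset ℝ) : ∀ᶠ n : ℕ in atTop, Set.InjOn (fun t : ℝ => ⌊t * 2 ^ n⌋) s := by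
  have h1 : ∀ t ∈ s, ∀ t' ∈ s, ∀ᶠ n : ℕ in atTop, ⌊t * 2 ^ n⌋ = ⌊t' * 2 ^ n⌋ → t = t' := by
    intro t _ t' _
    by_cases h : t = t'
    · exact Filter.Eventually.of_forall fun _ _ => h
    · have h2 : 0 < |t - t'| := abs_pos.mpr (sub_ne_zero.mpr h)
      have h3 : Tendsto (fun n : ℕ => |t - t'| * (2:ℝ) ^ n) atTop atTop :=
        (tendsto_pow_atTop_atTop_of_one_lt (by norm_num)).const_mul_atTop h2
      filter_upwards [h3.eventually_ge_atTop 1] with n hn heq
      exfalso
      have h4 := Int.abs_sub_lt_one_of_floor_eq_floor heq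
      rw [← sub_mul, abs_mul, abs_of_pos (by positivity : (0:ℝ) < 2 ^ n)] at h4
      linarith
  have h2 : ∀ᶠ n : ℕ in atTop, ∀ t ∈ s, ∀ t' ∈ s, ⌊t * 2 ^ n⌋ = ⌊t' * 2 ^ n⌋ → t = t' := by
    rw [Filter.eventually_all_finset]
    intro t ht
    rw [Filter.eventually_all_finset]
    exact fun t' ht' => h1 t ht t' ht'
  filter_upwards [h2] with n hn
  intro t ht t' ht' heq
  exact hn t ht t' ht' heq

/-- Banach indicatrix inequality -/
theorem indicatrix (g : ℝ → ℝ) (w : ℝ → ℝ≥0∞) (T : Set ℝ) (hT : MeasurableSet T)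
    (hw : ∀ T' : Set ℝ, MeasurableSet T' → volume (g '' T') ≤ ∫⁻ t in T', w t) :
    ∃ G : ℝ → ℝ≥0∞, Measurable G ∧
      (∀ c, (({t | t ∈ T ∧ g t = c} : Set ℝ).encard : ℝ≥0∞) ≤ G c) ∧
      ∫⁻ c : ℝ, G c ≤ ∫⁻ t in T, w t := by
  set M : ℕ → ℤ → Set ℝ := fun n i => toMeasurable volume (g '' (T ∩ D n i)) with hM
  have mM : ∀ n i, MeasurableSet (M n i) := fun n i => measurableSet_toMeasurable _ _
  set F : ℕ → ℝ → ℝ≥0∞ := fun n c => ∑' i, (M n i).indicator (fun _ => 1) c with hF
  have mF : ∀ n, Measurable (F n) := fun n =>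
    Measurable.ennreal_tsum fun i => measurable_const.indicator (mM n i)
  have iF : ∀ n, ∫⁻ c, F n c ≤ ∫⁻ t in T, w t := by
    intro n
    rw [hF]
    simp only
    rw [lintegral_tsum fun i => (measurable_const.indicator (mM n i)).aemeasurable]
    have e1 : ∀ i, ∫⁻ c, (M n i).indicator (fun _ => 1) c = volume (g '' (T ∩ D n i)) := by
      intro i
      rw [lintegral_indicator (mM n i), setLIntegral_const, one_mul, hM]
      exact measure_toMeasurable _
    simp only [e1]
    have e2 : ∫⁻ t in T, w t = ∑' i, ∫⁻ t in T ∩ D n i, w t := by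
      have e3 : T = ⋃ i, T ∩ D n i := by
        rw [← inter_iUnion]
        have : (⋃ i, D n i) = univ := by
          rw [eq_univ_iff_forall]
          intro t
          exact mem_iUnion.mpr ⟨_, rfl⟩
        rw [this, inter_univ]
      conv_lhs => rw [e3]
      rw [lintegral_iUnion (fun i => hT.inter (meas_D n i))]
      intro i j hij
      show Disjoint (T ∩ D n i) (T ∩ D n j)
      rw [Set.disjoint_left]
      rintro t ⟨_, h1⟩ ⟨_, h2⟩
      exact hij (h1.symm.trans h2)
    rw [e2]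
    exact ENNReal.tsum_le_tsum fun i => hw _ (hT.inter (meas_D n i))
  have key : ∀ (c : ℝ) (s : Finset ℝ), (∀ t ∈ s, t ∈ T ∧ g t = c) →
      ((s.card : ℕ) : ℝ≥0∞) ≤ liminf (fun n => F n c) atTop := by
    intro c s hs
    refine le_liminf_of_le (by isBoundedDefault) ?_
    filter_upwards [separate s] with n hn
    have e1 : (s.card : ℝ≥0∞) =
        ∑ i ∈ s.image (fun t : ℝ => ⌊t * 2 ^ n⌋), (M n i).indicator (fun _ => (1:ℝ≥0∞)) c := by
      have e2 : ∑ i ∈ s.image (fun t : ℝ => ⌊t * 2 ^ n⌋),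
          (M n i).indicator (fun _ => (1:ℝ≥0∞)) c =
          ∑ i ∈ s.image (fun t : ℝ => ⌊t * 2 ^ n⌋), 1 := by
        refine Finset.sum_congr rfl fun i hi => ?_
        obtain ⟨t, ht, hti⟩ := Finset.mem_image.mp hi
        rw [Set.indicator_of_mem]
        refine subset_toMeasurable _ _ ⟨t, ⟨(hs t ht).1, hti⟩, (hs t ht).2⟩
      rw [e2, Finset.sum_const, nsmul_eq_mul, mul_one, Finset.card_image_of_injOn hn]
    rw [e1]
    exact ENNReal.sum_le_tsum _
  refine ⟨fun c => liminf (fun n => F n c) atTop, Measurable.liminf mF, ?_, ?_⟩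
  · intro c
    by_cases hfin : ({t | t ∈ T ∧ g t = c} : Set ℝ).Finite
    · have h1 := key c hfin.toFinset (fun t ht => by simpa using ht)
      rw [hfin.encard_eq_coe_toFinset_card]
      simpa using h1
    · have hinf : ({t | t ∈ T ∧ g t = c} : Set ℝ).Infinite := hfin
      have htop : liminf (fun n => F n c) atTop = ⊤ := by
        refine ENNReal.eq_top_of_forall_nnreal_le fun r => ?_
        obtain ⟨m, hm⟩ := exists_nat_ge r
        obtain ⟨s, hs1, hs2⟩ := hinf.exists_subset_card_eq m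
        have h1 := key c s (fun t ht => hs1 ht)
        rw [hs2] at h1
        refine le_trans ?_ h1
        exact_mod_cast hm
      show _ ≤ liminf (fun n => F n c) atTop
      rw [htop]
      exact le_top
  · refine le_trans (lintegral_liminf_le mF) ?_
    refine le_trans (liminf_le_liminf (v := fun _ => ∫⁻ t in T, w t)
      (Filter.Eventually.of_forall iF)) ?_
    simp

theorem image_le (f : ℝ → ℝ) (C : ℝ≥0) (a b : ℝ) (hf : LipschitzWith C f) (T : Set ℝ)
    (hT : MeasurableSet T) :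
    volume ((fun t => a * t + b * f t) '' T) ≤
      ∫⁻ t in T, ENNReal.ofReal |a + b * deriv f t| := by
  set g : ℝ → ℝ := fun t => a * t + b * f t with hg
  set E : Set ℝ := {t | DifferentiableAt ℝ f t} with hE
  have mE : MeasurableSet E := measurableSet_of_differentiableAt ℝ f
  have nE : volume Eᶜ = 0 := hf.ae_differentiableAt_of_real
  have hgL : ∃ K : ℝ≥0, LipschitzWith K g := by
    refine ⟨‖a‖₊ * 1 + ‖b‖₊ * C, ?_⟩
    refine LipschitzWith.add ?_ ?_
    · exact (lipschitzWith_smul a).comp LipschitzWith.id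
    · exact (lipschitzWith_smul b).comp hf
  obtain ⟨K, hK⟩ := hgL
  have h1 : volume (g '' (T ∩ E)) ≤ ∫⁻ t in T ∩ E, ENNReal.ofReal |a + b * deriv f t| := by
    have h2 := addHaar_image_le_lintegral_abs_det_fderiv (μ := volume) (f := g)
      (f' := fun t => ContinuousLinearMap.toSpanSingleton ℝ (a + b * deriv f t))
      (s := T ∩ E) (hT.inter mE) (by
        intro t ht
        have h3 : HasDerivAt f (deriv f t) t := DifferentiableAt.hasDerivAt ht.2
        have h4 : HasDerivAt g (a * 1 + b * deriv f t) t :=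
          ((hasDerivAt_id t).const_mul a).add (h3.const_mul b)
        rw [mul_one] at h4
        exact h4.hasFDerivAt.hasFDerivWithinAt)
    simpa only [ContinuousLinearMap.det_toSpanSingleton] using h2
  have h2 : volume (g '' (T \ E)) = 0 := by
    have h3 := hK.hausdorffMeasure_image_le (d := 1) zero_le_one (T \ E)
    rw [hausdorffMeasure_real] at h3
    have h4 : volume (T \ E) = 0 := measure_mono_null (fun t ht => ht.2) nE
    rw [h4, mul_zero] at h3
    exact le_antisymm h3 bot_le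
  have h3 : g '' T ⊆ g '' (T ∩ E) ∪ g '' (T \ E) := by
    rw [← image_union, inter_union_diff]
  calc volume (g '' T) ≤ volume (g '' (T ∩ E)) + volume (g '' (T \ E)) :=
        le_trans (measure_mono h3) (measure_union_le _ _)
    _ = volume (g '' (T ∩ E)) := by rw [h2, add_zero]
    _ ≤ ∫⁻ t in T ∩ E, ENNReal.ofReal |a + b * deriv f t| := h1
    _ ≤ _ := lintegral_mono_set inter_subset_left

end BanAux

theorem prf_Ban : S_Ban := by
  intro f C T ν hf hT
  obtain ⟨G, hG1, hG2, hG3⟩ := BanAux.indicatrix (fun t => ν 0 * t + ν 1 * f t)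
    (fun t => ENNReal.ofReal |ν 0 + ν 1 * deriv f t|) T hT
    (fun T' hT' => BanAux.image_le f C (ν 0) (ν 1) hf T' hT')
  refine ⟨G, hG1, fun c => le_trans ?_ (hG2 c), hG3⟩
  unfold crs
  have h1 : ((fun t => (!₂[t, f t] : E2)) '' T) ∩ line ν c ⊆
      (fun t => (!₂[t, f t] : E2)) '' {t | t ∈ T ∧ ν 0 * t + ν 1 * f t = c} := by
    rintro x ⟨⟨t, ht, rfl⟩, hx⟩
    refine ⟨t, ⟨ht, ?_⟩, rfl⟩
    unfold line at hx
    rw [mem_setOf_eq, PiLp.inner_apply] at hx
    simp [Fin.sum_univ_two] at hx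
    linarith
  have h2 : (((fun t => (!₂[t, f t] : E2)) '' T) ∩ line ν c).encard ≤
      ({t | t ∈ T ∧ ν 0 * t + ν 1 * f t = c} : Set ℝ).encard :=
    le_trans (encard_le_encard h1) (encard_image_le _ _)
  exact_mod_cast h2

end Pool.Agent.Robin
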